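import Mathlib
import Pool.Agent.Helper87_ND.UpperMain
import Pool.Agent.Helper87_ND.LowerMain

/-! Cliques with few colours in colourings of bounded dimension. -/

namespace Pool.Agent.Results.MP_1090a0_co.BoundedDimension

open Pool.Agent.Helper87_ND

/-- Upper bound: for `d ≥ 1`, `k ≥ 2`, `p ≥ 4` and `n ≥ (max k d)^(33 d) k^(p-4)` every
`k`-edge-colouring of `K_n` of Natarajan dimension at most `d` contains a `K_p` with at most `p - 2`
colours. Lower bound: for `r ≥ 1` and `4 ≤ p < 2^(r+2)` there are `c > 0` and `k₀` such that for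
`k ≥ k₀` and `2 ≤ d ≤ log k` every `n` with this property satisfies
`n ≥ exp (c d^(1/r) log k)`. -/
theorem result :
    (∀ d p k n : ℕ, 1 ≤ d → 2 ≤ k → 4 ≤ p → (max k d) ^ (33 * d) * k ^ (p - 4) ≤ n →
      ForcesDim d p k n) ∧
    (∀ r p : ℕ, 1 ≤ r → 4 ≤ p → p < 2 ^ (r + 2) →
      ∃ c : ℝ, 0 < c ∧ ∃ k₀ : ℕ, ∀ k : ℕ, k₀ ≤ k → ∀ d : ℕ, 2 ≤ d → (d : ℝ) ≤ Real.log k →
        ∀ n : ℕ, ForcesDim d p k n →
          Real.exp (c * (d : ℝ) ^ (1 / (r : ℝ)) * Real.log k) ≤ n) :=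
  ⟨fun d p k n hd hk hp hn => upper d p k n hd hk hp hn,
    fun r p hr hp hp' => lower r hr p hp hp'⟩

end Pool.Agent.Results.MP_1090a0_co.BoundedDimension
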